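import Pool.Agent.Q157.PC.Final
import Pool.Agent.Q157.PC.TaskMD
import Pool.Agent.Q157.PC.TaskQuota
import Pool.Agent.Q157.PC.TaskA1
import Pool.Agent.PC157.TaskA2
import Pool.Agent.PC157.TaskJ1
import Pool.Agent.PC157.TaskJ2
import Pool.Agent.PC157.TaskB1
import Pool.Agent.PC157.TaskUse
import Pool.Agent.PC157.TaskPar
import Pool.Agent.Q157.PC.TaskCaseA
import Pool.Agent.PC157.TaskCaseB
import Pool.Agent.PC157.TaskLow
import Pool.Agent.PC157.TaskLim

/-!
# The proportional choice number of `K_{n,m}`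

`m/2 < χ_pc(K_{n,m}) ≤ (m + 1)/2 + n²`, so `χ_pc(K_{n,m})/m → 1/2` for every fixed `n`.

The definitions (`Pool/Agent/Q157/PC/Stmts.lean`):
* `mult L c`: the number of vertices whose list contains `c`; `use f c`: the number of vertices coloured `c`;
* `IsProportional G k L f`: `f v ∈ L v` for all `v`, adjacent vertices have different colours, and every
  colour `c` of the palette is used `⌊mult L c / k⌋` or `⌈mult L c / k⌉` times;
* `PropChoosable G k`: every assignment of lists of exactly `k` colours has a proportional colouring;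
* `chiPC G`: the least `k ≥ 1` with `PropChoosable G k`; `K n m`: the complete bipartite graph.

Proof: colours of multiplicity `> k` are heavy. If there are few of them, the first part can avoid them
(Hall's theorem and the Mendelsohn-Dulmage theorem); if there are many, any choice on the first part
can be extended.
-/

set_option autoImplicit false

namespace Pool.Agent.Results.MP_f66848_co.LimitOneHalf

open Pool.Agent.Q157.PC

/-- For every `n ≥ 1`: `(m + 1)/2 < χ_pc(K_{n,m}) ≤ ⌊(m + 1)/2⌋ + n²` for all `m ≥ 1`, and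
`χ_pc(K_{n,m})/m → 1/2` as `m → ∞`. -/
theorem result (n : ℕ) (hn : 1 ≤ n) :
    (∀ m : ℕ, 1 ≤ m → m + 1 < 2 * chiPC (K n m) ∧ chiPC (K n m) ≤ (m + 1) / 2 + n ^ 2 ∧
      PropChoosable (K n m) (chiPC (K n m))) ∧
    Filter.Tendsto (fun m : ℕ => (chiPC (K n m) : ℝ) / m) Filter.atTop (nhds (1 / 2)) :=
  final
    (Pool.Agent.Q157.PC.TCaseA.main (Pool.Agent.Q157.PC.TaskQuota.main Pool.Agent.Q157.PC.TaskMD.main)
      Pool.Agent.Q157.PC.TaskA1.main Pool.Agent.PC157.TaskA2.main Pool.Agent.PC157.TaskUse.main)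
    (Pool.Agent.PC157.TaskCaseB.main (Pool.Agent.Q157.PC.TaskQuota.main Pool.Agent.Q157.PC.TaskMD.main)
      Pool.Agent.PC157.TaskJ1.main Pool.Agent.PC157.TaskJ2.main Pool.Agent.PC157.TaskB1.main
      Pool.Agent.PC157.TaskUse.main)
    Pool.Agent.PC157.TaskPar.main Pool.Agent.PC157.TaskLow.main Pool.Agent.PC157.TaskLim.main n hn

end Pool.Agent.Results.MP_f66848_co.LimitOneHalf
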